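import Mathlib
import Pool.Agent.R89.UP.Main

/-!
# Leopoldt's conjecture for many primes at once, in families of every signature

Let `r₁ + r₂ ≥ 1`, and `f_t = ∏ (Y - a_i t) ∏ ((Y - b_k t)² + c_k t²) - 1` (`t ∈ ℤ`) the family of the
starting result `EverySignature`. That result says that for *one fixed prime* `p` Leopoldt's
conjecture holds for `p` and the field `K_t = ℚ[Y]/(f_t)` for all but finitely many `t`; nothing is
said on how the exceptional set depends on `p`. Here the exceptional set is bounded uniformly in `p`,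
so that one can treat all primes up to a bound `P` growing with the range of `t` *simultaneously*:
outside a set of at most `C₀ + (r₁ + r₂ - 1)² P²` integers `t`, Leopoldt's conjecture holds for `K_t`
and all primes `p ≤ P` which do not divide `Δ(t)`, where `Δ ∈ ℤ[T]` is a fixed nonzero polynomial.
Taking `P = c √T` one sees that for all but `ε T` of the integers `t` in `[-T, T]` the conjecture
holds for `K_t` and all `p ≤ c √T` not dividing `Δ(t)` at the same time.
-/

set_option autoImplicit false

namespace Pool.Agent.Results.MP_5f2860_nt.ManyPrimes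

open Polynomial NumberField
open Pool.Agent.H637R2.Leo (Leopoldt)
open Pool.Agent.H33R4 (spec fam)

/-- Let `r₁ + r₂ ≥ 1`, `a_1, …, a_{r₁}` distinct integers, `(b_k, c_k)` (`k ≤ r₂`) distinct pairs of
integers with `c_k > 0`, and `f_t = ∏ (Y - a_i t) ∏ ((Y - b_k t)² + c_k t²) - 1`. There are a nonzero
polynomial `Δ ∈ ℤ[T]` and `C₀` such that for every `P` there is a set `S` of at most
`C₀ + (r₁ + r₂ - 1)² P²` integers with: for all `t ∉ S` the polynomial `f_t` is irreducible, and
`K_t = ℚ[Y]/(f_t)` has `r₁` real and `r₂` complex places and satisfies Leopoldt's conjecture for all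
primes `p ≤ P` which do not divide `Δ(t)`. -/
theorem result (r₁ r₂ : ℕ) (h : 1 ≤ r₁ + r₂) (a : Fin r₁ → ℤ) (b c : Fin r₂ → ℤ)
    (ha : Function.Injective a) (hbc : Function.Injective (fun k => (b k, c k)))
    (hc : ∀ k, 0 < c k) :
    ∃ (Δ : ℤ[X]) (C₀ : ℕ), Δ ≠ 0 ∧ ∀ P : ℕ, ∃ S : Finset ℤ,
      S.card ≤ C₀ + (r₁ + r₂ - 1) ^ 2 * P ^ 2 ∧
      ∀ t ∉ S, Irreducible (spec t (fam a b c)) ∧
        ∀ (K : Type) [Field K] [NumberField K] (θ : K), aeval θ (spec t (fam a b c)) = 0 →
          IntermediateField.adjoin ℚ {θ} = ⊤ →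
          InfinitePlace.nrRealPlaces K = r₁ ∧ InfinitePlace.nrComplexPlaces K = r₂ ∧
            ∀ (p : ℕ) [Fact p.Prime], p ≤ P → ¬ (p : ℤ) ∣ Δ.eval t → Leopoldt K p :=
  Pool.Agent.R89.UP.main r₁ r₂ h a b c ha hbc hc

end Pool.Agent.Results.MP_5f2860_nt.ManyPrimes
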