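import Pool.Agent.R493.LD.F
import Pool.Agent.R362.LM.Quad
import Pool.Agent.Y944.LC.BRU

/-!
# Minimal counterexamples to Leopoldt's conjecture

(1) Let `G` be a group of automorphisms of a number field `L`. If Leopoldt's conjecture for `p` fails
for `L` but holds for the fixed fields of the subgroups of prime order of `G`, then `G` has a
nonzero finite dimensional rational representation in which no element `g ≠ 1` has a nonzero fixed
vector (so `G` is trivial or a Frobenius complement); in particular all subgroups of `G` whose
order is a product of two primes are cyclic, and `G` has at most one element of order two.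

(2) Let `M` be a minimal counterexample: Leopoldt's conjecture for `p` fails for `M` but holds for all
proper subfields `F` of `M`. Then the unit rank of `M` is larger than that of all proper subfields
`F`, by at least two if `[M : F] = 2` (at least two infinite places of `F` split in `M`). If `M` is
Galois over `ℚ`, then `M` is totally real and its Galois group, a Frobenius complement by (1), is
not abelian.

(3) If the conjecture fails for `p` at all, there is a minimal counterexample with a real embedding.

Proof. Let `J ⊆ ℚ[G]` be the left ideal generated by the elements `N_h b` with `b ∈ G`, `h ∈ G` of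
prime order and `N_h` the sum of the powers of `h`. If `J ≠ ℚ[G]` then `ℚ[G] / J` is the
representation. If `J = ℚ[G]` there is a relation `d = ∑ c_i a_i N_{h_i} b_i` with integers `c_i`,
`d > 0` and `a_i, b_i ∈ G`, so a unit of `L` all of whose norms to the fixed fields are torsion is
torsion, and a `ℤ_p`-relation between units of `L` descends to the fixed fields. For (2): if
`M / F` is quadratic with automorphism `c` and relative unit rank at most one, then the units `u / c u`
are up to torsion powers of one unit of infinite order. For `M / ℚ` Galois and `c` a complex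
conjugation, the sum of the conjugates of `1 + c` is injective on the units modulo torsion, so the
conjecture for the fixed field of `c` implies it for `M`. For the last point the theorem of Ax and
Brumer for abelian fields (starting library, helper944) is used.

Joint work of helper493 ((1), (3)) and helper362 ((2), last part of (1)).
-/

set_option autoImplicit false

namespace Pool.Agent.Results.MP_5f2860_nt.MinimalCounterexamples

open NumberField Filter Topology

/-- Leopoldt's conjecture for the number field `K` and the prime `p`: units congruent to one modulo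
all primes above `p` which are independent over `ℤ` are independent over `ℤ_p`. (A relation with
exponents `a_i ∈ ℤ_p` means: for one sequence of integer vectors `m k → a`, the products
`∏ ε_i ^ (m k i)` tend to one `p`-adically.) -/
def Leopoldt (K : Type) [Field K] [NumberField K] (p : ℕ) [Fact p.Prime] : Prop :=
  ∀ (n : ℕ) (ε : Fin n → (𝓞 K)ˣ),
    (∀ i, ((ε i : 𝓞 K) - 1) ∈ (Ideal.span {((p : ℕ) : 𝓞 K)}).radical) →
    (∀ c : Fin n → ℤ, ∏ i, ε i ^ c i = 1 → c = 0) →
    ∀ (a : Fin n → PadicInt p) (m : ℕ → Fin n → ℤ),
      (∀ i, Tendsto (fun k => ((m k i : ℤ) : PadicInt p)) atTop (𝓝 (a i))) →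
      (∀ N : ℕ, ∀ᶠ k in atTop,
        ((p : ℕ) : 𝓞 K) ^ N ∣ (((∏ i, ε i ^ m k i : (𝓞 K)ˣ) : 𝓞 K) - 1)) →
      a = 0

/-- `G` has a nonzero finite dimensional representation over `ℚ` in which no `g ≠ 1` has a nonzero
fixed vector. -/
def HasFixedPointFreeRep (G : Type) [Group G] : Prop :=
  ∃ (W : Type) (_ : AddCommGroup W) (_ : Module ℚ W) (_ : FiniteDimensional ℚ W)
    (ρ : Representation ℚ G W), Nontrivial W ∧ ∀ g : G, g ≠ 1 → ∀ w, ρ g w = w → w = 0

/-- Leopoldt's conjecture for `p` fails for `M` and holds for all proper subfields of `M`. -/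
def Minimal (M : Type) [Field M] [NumberField M] (p : ℕ) [Fact p.Prime] : Prop :=
  ¬ Leopoldt M p ∧ ∀ F : IntermediateField ℚ M, F ≠ ⊤ → Leopoldt F p

/-- The conclusion of (1): `G` has a representation as above, the subgroups of `G` whose order is a
product of two primes are cyclic, and `G` has at most one element of order two. -/
def Restricted (A : Type) [Group A] (G : Subgroup A) : Prop :=
  HasFixedPointFreeRep G ∧
  (∀ P : Subgroup A, P ≤ G → ∀ l q : ℕ, l.Prime → q.Prime → Nat.card P = l * q → IsCyclic P) ∧
  ∀ a ∈ G, ∀ b ∈ G, orderOf a = 2 → orderOf b = 2 → a = b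

/-- The conclusion of (2) on the unit ranks of `M` and of its proper subfields. -/
def RankGrowth (M : Type) [Field M] [NumberField M] : Prop :=
  (∀ F : IntermediateField ℚ M, F ≠ ⊤ → Units.rank F < Units.rank M) ∧
  ∀ F : IntermediateField ℚ M, Module.finrank F M = 2 → Units.rank F + 2 ≤ Units.rank M

/-- The structure of minimal counterexamples to Leopoldt's conjecture. -/
theorem result (p : ℕ) [Fact p.Prime] :
    -- (1)
    (∀ (L : Type) [Field L] [NumberField L] (G : Subgroup (L ≃ₐ[ℚ] L)), ¬ Leopoldt L p →
      (∀ H : Subgroup (L ≃ₐ[ℚ] L), H ≤ G → (Nat.card H).Prime →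
        Leopoldt (IntermediateField.fixedField H) p) →
      Restricted (L ≃ₐ[ℚ] L) G) ∧
    -- (2)
    (∀ (M : Type) [Field M] [NumberField M], Minimal M p → RankGrowth M ∧
      (IsGalois ℚ M → IsTotallyReal M ∧ ∃ g h : M ≃ₐ[ℚ] M, g * h ≠ h * g)) ∧
    -- (3)
    ((∃ (K : Type) (_ : Field K) (_ : NumberField K), ¬ Leopoldt K p) →
      ∃ (M : Type) (_ : Field M) (_ : NumberField M), Minimal M p ∧ Nonempty (M →+* ℝ) ∧
        HasFixedPointFreeRep (M ≃ₐ[ℚ] M)) := by
  refine ⟨?_, ?_, ?_⟩
  · intro L _ _ G hL hG
    refine ⟨R493.LD.fpf_of_failure p G hG hL, fun P hP l q hl hq hc =>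
      R493.LD.cyclic_of_failure p G hG hL P hP l q hl hq hc, ?_⟩
    intro a ha b hb ha2 hb2
    by_contra hab
    have h2 : ∀ x : L ≃ₐ[ℚ] L, orderOf x = 2 → x * x = 1 ∧ x ≠ 1 := by
      intro x hx
      refine ⟨?_, ?_⟩
      · rw [← pow_two, ← hx, pow_orderOf_eq_one]
      · rintro rfl
        rw [orderOf_one] at hx
        exact absurd hx (by norm_num)
    have hF : ∀ x ∈ G, x ≠ 1 →
        Leopoldt (IntermediateField.fixedField (Subgroup.zpowers x)) p := by
      intro x hx hx1
      have hord : orderOf x ≠ 1 := fun h => hx1 (orderOf_eq_one_iff.mp h)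
      obtain ⟨q, hq, hqd⟩ := Nat.exists_prime_and_dvd hord
      have hfin : IsOfFinOrder x := isOfFinOrder_of_finite x
      have ho : orderOf (x ^ (orderOf x / q)) = q := by
        rw [orderOf_pow_of_dvd (Nat.div_pos (Nat.le_of_dvd hfin.orderOf_pos hqd) hq.pos).ne'
          (Nat.div_dvd_of_dvd hqd), Nat.div_div_self hqd hfin.orderOf_pos.ne']
      have hle : Subgroup.zpowers (x ^ (orderOf x / q)) ≤ Subgroup.zpowers x := by
        rw [Subgroup.zpowers_le]
        exact Subgroup.pow_mem _ (Subgroup.mem_zpowers x) _
      have hle2 : Subgroup.zpowers (x ^ (orderOf x / q)) ≤ G := by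
        rw [Subgroup.zpowers_le]
        exact Subgroup.pow_mem _ hx _
      have h3 := hG _ hle2 (by rw [Nat.card_zpowers, ho]; exact hq)
      exact Pool.Agent.R362.LM.dsc ((IntermediateField.inclusion
        (IntermediateField.fixedField_antitone hle) :
          IntermediateField.fixedField (Subgroup.zpowers x) →ₐ[ℚ]
          IntermediateField.fixedField (Subgroup.zpowers (x ^ (orderOf x / q)))) :
          IntermediateField.fixedField (Subgroup.zpowers x) →+*
          IntermediateField.fixedField (Subgroup.zpowers (x ^ (orderOf x / q)))) p h3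
    have hx1 : a * b ≠ 1 := by
      intro h
      apply hab
      rw [mul_eq_one_iff_eq_inv.mp h, ← mul_eq_one_iff_eq_inv.mp (h2 b hb2).1]
    exact hL (Pool.Agent.R362.LM.leo_of_involutions p a b (h2 a ha2).1 (h2 b hb2).1 hab
      (hF a ha (h2 a ha2).2) (hF b hb (h2 b hb2).2) (hF _ (mul_mem ha hb) hx1))
  · intro L _ _ hmin
    have hrank : ∀ F : IntermediateField ℚ L, Units.rank F ≤ Units.rank L := by
      intro F
      unfold Units.rank
      have := InfinitePlace.card_mono F L
      omega
    refine ⟨⟨?_, ?_⟩, ?_⟩
    · intro F hne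
      by_contra hcon
      push Not at hcon
      exact hmin.1 (Pool.Agent.R362.LM.leo_of_rank (algebraMap F L) p (hmin.2 F hne) hcon
        (hrank F))
    · intro F h2
      by_contra hcon
      push Not at hcon
      have hne : F ≠ ⊤ := by
        rintro rfl
        rw [IntermediateField.finrank_top] at h2
        exact absurd h2 (by norm_num)
      exact hmin.1 (Pool.Agent.R362.LM.leo_of_quadratic p F L h2 (hmin.2 F hne) (by omega))
    · intro hgal
      refine ⟨?_, ?_⟩
      · refine ⟨fun w0 => ?_⟩
        by_contra hw
        obtain ⟨c, hc1, hcc, hcw, -⟩ := Pool.Agent.R362.LM.exists_conj w0 hw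
        refine hmin.1 (Pool.Agent.R362.LM.leo_of_conj p w0 c hcc hcw ?_)
        exact hmin.2 _ (Pool.Agent.R362.LM.fixed_ne_top _
          fun h => hc1 (Subgroup.zpowers_eq_bot.mp h))
      · by_contra hcon
        push Not at hcon
        exact hmin.1 (Pool.Agent.Y944.LC.bru L p hgal hcon)
  · intro h
    obtain ⟨M, i1, i2, hM, hr, hF⟩ := R493.LD.exists_minimal p h
    refine ⟨M, i1, i2, ⟨hM, hF⟩, hr, ?_⟩
    obtain ⟨W, j1, j2, j3, ρ, hW, hρ⟩ := R493.LD.fpf_of_failure p (⊤ : Subgroup (M ≃ₐ[ℚ] M))
      (fun H _ hH => hF _ (by
        intro htop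
        have h1 : H = ⊥ := by
          rw [← IntermediateField.fixingSubgroup_fixedField H, htop,
            IntermediateField.fixingSubgroup_top]
        rw [h1, Subgroup.card_bot] at hH
        exact Nat.not_prime_one hH)) hM
    refine ⟨W, j1, j2, j3, ρ.comp Subgroup.topEquiv.symm.toMonoidHom, hW, fun g hg w hw => ?_⟩
    exact hρ (Subgroup.topEquiv.symm g) (by
      intro h1
      apply hg
      exact congrArg (fun x : (⊤ : Subgroup (M ≃ₐ[ℚ] M)) => (x : M ≃ₐ[ℚ] M)) h1) w hw

end Pool.Agent.Results.MP_5f2860_nt.MinimalCounterexamples
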