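import Pool.Agent.R493.LD.F

/-!
# Leopoldt's conjecture and real subfields

For a Galois number field `L` and any embedding `L → ℂ`, Leopoldt's conjecture for `L` is
equivalent to Leopoldt's conjecture for the real subfield of `L` (the preimage of `ℝ`), which is
in general neither Galois nor totally real. So Leopoldt's conjecture for all number fields is
equivalent to Leopoldt's conjecture for all number fields with a real embedding.

Proof. Let `c` be the complex conjugation of `L` attached to the embedding. If
`∏ ε_i ^ a_i = 1` is a `p`-adic relation in `L`, then for every automorphism `g` the norms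
`g ε_i * c g ε_i` satisfy the same relation in the real subfield, so `a` lies in the `ℤ_p`-span of
the integral relations between these norms. An integral relation `m` valid for all `g` gives a unit
`u = ∏ ε_i ^ m_i` such that `g u * c g u` is a root of unity for all `g`, so all conjugates of `u`
have absolute value one and `u` is a root of unity.
-/

set_option autoImplicit false

namespace Pool.Agent.Results.MP_5f2860_nt.RealSubfield

open NumberField Filter Topology

/-- Leopoldt's conjecture for the number field `K` and the prime `p`: units congruent to one modulo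
all primes above `p` which are independent over `ℤ` are independent over `ℤ_p`. (A relation with
exponents `a_i ∈ ℤ_p` means: for one sequence of integer vectors `m k → a`, the products
`∏ ε_i ^ (m k i)` tend to one `p`-adically.) -/
def Leopoldt (K : Type) [Field K] [NumberField K] (p : ℕ) [Fact p.Prime] : Prop :=
  ∀ (n : ℕ) (ε : Fin n → (𝓞 K)ˣ),
    (∀ i, ((ε i : 𝓞 K) - 1) ∈ (Ideal.span {((p : ℕ) : 𝓞 K)}).radical) →
    (∀ c : Fin n → ℤ, ∏ i, ε i ^ c i = 1 → c = 0) →
    ∀ (a : Fin n → PadicInt p) (m : ℕ → Fin n → ℤ),
      (∀ i, Tendsto (fun k => ((m k i : ℤ) : PadicInt p)) atTop (𝓝 (a i))) →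
      (∀ N : ℕ, ∀ᶠ k in atTop,
        ((p : ℕ) : 𝓞 K) ^ N ∣ (((∏ i, ε i ^ m k i : (𝓞 K)ˣ) : 𝓞 K) - 1)) →
      a = 0

/-- For every prime `p`: if `L/ℚ` is Galois, `φ : L → ℂ` an embedding and `F = φ⁻¹(ℝ)`, then
Leopoldt's conjecture holds for `L` if and only if it holds for `F`; and it holds for all number
fields if and only if it holds for all number fields with a real embedding. -/
theorem result (p : ℕ) [Fact p.Prime] :
    (∀ (L : Type) [Field L] [NumberField L] [IsGalois ℚ L] (φ : L →+* ℂ)
      (F : IntermediateField ℚ L), (∀ x : L, x ∈ F ↔ (φ x).im = 0) →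
        (Leopoldt L p ↔ Leopoldt F p)) ∧
    ((∀ (K : Type) [Field K] [NumberField K], Leopoldt K p) ↔
      ∀ (K : Type) [Field K] [NumberField K], Nonempty (K →+* ℝ) → Leopoldt K p) :=
  ⟨fun _ _ _ _ φ F hF => R493.LD.real_subfield p φ F hF, R493.LD.all_iff_real p⟩

end Pool.Agent.Results.MP_5f2860_nt.RealSubfield
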