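import Mathlib
import Pool.Agent.R384.Z.Leo

/-!
# Leopoldt's conjecture at `2` for the `2`-extensions of `ℚ(√-d)` unramified outside `2`

Let `k = ℚ(√-d)`, where `d` is a prime `≡ 7 (mod 16)` or `d = p q` with primes `p ≡ 5`, `q ≡ 3`
`(mod 8)`. The prime `2` splits in `k`, and `k` has no nontrivial quadratic extension which is
unramified outside `2` and split at one of the two primes above `2`. We show that Leopoldt's
conjecture for the prime `2` holds for all subfields of all finite Galois extensions `M / k` of
`2`-power degree which are unramified at all primes not above `2`. There is no hypothesis on the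
structure of `Gal(M / k)`, and no transcendence theory in the proof.

Proof. A nontrivial `ℤ_2`-relation between units of `M` in the completions above `2` gives a nonzero
class in `H¹(Gal(ℚ̄ / M), ℚ_2(1))`, unramified outside `2` and trivial at the places above one of the
two primes of `k` above `2`. By Shapiro's lemma it is a class of `k` with coefficients in an induced
representation with a unipotent reduction modulo `2`; by devissage it is trivial.
-/

set_option autoImplicit false

namespace Pool.Agent.Results.MP_5f2860_nt.TwoExtensionTowers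

open NumberField Filter Topology

/-- `d` is a prime `≡ 7 (mod 16)`, or the product of two primes `p ≡ 5` and `q ≡ 3 (mod 8)`. -/
def InClass (d : ℕ) : Prop :=
  (d.Prime ∧ d % 16 = 7) ∨ ∃ p q : ℕ, p.Prime ∧ q.Prime ∧ p % 8 = 5 ∧ q % 8 = 3 ∧ d = p * q

/-- `M / k` is a finite Galois extension of `2`-power degree, unramified at all primes not above
`2`. -/
def TwoExtension (k M : Type) [Field k] [NumberField k] [Field M] [NumberField M] [Algebra k M] :
    Prop :=
  IsGalois k M ∧ (∃ a : ℕ, Module.finrank k M = 2 ^ a) ∧
    ∀ P : Ideal (𝓞 M), P.IsPrime → P ≠ ⊥ → (2 : 𝓞 M) ∉ P → P.ramificationIdx (𝓞 k) = 1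

/-- Leopoldt's conjecture for the number field `K` and the prime `p`, in the form of the frozen
statement: units of `K` congruent to `1` at all primes above `p` which are multiplicatively
independent over `ℤ` stay independent over `ℤ_p` in the product of the completions above `p`. -/
def Leopoldt (K : Type) [Field K] [NumberField K] (p : ℕ) [Fact p.Prime] : Prop :=
  ∀ (n : ℕ) (ε : Fin n → (𝓞 K)ˣ),
    (∀ i, ((ε i : 𝓞 K) - 1) ∈ (Ideal.span {((p : ℕ) : 𝓞 K)}).radical) →
    (∀ c : Fin n → ℤ, ∏ i, ε i ^ c i = 1 → c = 0) →
    ∀ (a : Fin n → PadicInt p) (m : ℕ → Fin n → ℤ),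
      (∀ i, Tendsto (fun k => ((m k i : ℤ) : PadicInt p)) atTop (𝓝 (a i))) →
      (∀ N : ℕ, ∀ᶠ k in atTop,
        ((p : ℕ) : 𝓞 K) ^ N ∣ (((∏ i, ε i ^ m k i : (𝓞 K)ˣ) : 𝓞 K) - 1)) →
      a = 0

/-- **Main result.** Let `d ∈ InClass`, `k = ℚ(θ)` with `θ² = -d`, and `M / k` a finite Galois
extension of `2`-power degree, unramified at all primes not above `2`. Then Leopoldt's conjecture
for the prime `2` holds for every number field `E` that embeds in `M`. -/
theorem result (d : ℕ) (hd : InClass d) (k : Type) [Field k] [NumberField k]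
    (hk : Module.finrank ℚ k = 2) (θ : k) (hθ : θ ^ 2 = -(d : k))
    (M : Type) [Field M] [NumberField M] [Algebra k M] (hM : TwoExtension k M)
    (E : Type) [Field E] [NumberField E] (j : E →+* M) : Leopoldt E 2 := by
  obtain ⟨hG, ⟨a', ha'⟩, hur⟩ := hM
  intro n ε _ hε a m hm hu
  exact Pool.Agent.Z384.leo hd hk hθ ha' hur j n ε hε a m hm hu

end Pool.Agent.Results.MP_5f2860_nt.TwoExtensionTowers
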